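import Pool.Agent.DRB.APPL

set_option autoImplicit false

/-!
# The de Rham-Betti conjecture for most hyperelliptic curves

For all but `K T ^ (n - 1 / K)` of the tuples `N l ≤ T`, all sub-de Rham-Betti structures of all
tensor constructions (of every degree) from an arbitrary fixed de Rham-Betti structure `M_0` over
`ℚ` and the first cohomology groups of the hyperelliptic curves `y ^ 2 = h_l(x) (x - 1 / N_l)` of
genus `g_l`, `l = 1, …, n`, are stable under the product of the symplectic groups `Sp_{2 g_l}`.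
-/

namespace Pool.Agent.Variants.MP_5d33ca_ag.DeRhamBettiHyperelliptic

open Polynomial

/-- the integral `∫_{b_j}^{b_{j+1}} x^a dx / √|∏ (x - b_i)|`, `a, j < 2g` -/
noncomputable def period {g : ℕ} (b : Fin (2 * g + 1) → ℝ) (a j : Fin (2 * g)) : ℝ :=
  ∫ x in (b j.castSucc)..(b j.succ), x ^ (a : ℕ) / Real.sqrt |∏ i, (x - b i)|

/-- the comparison matrix of `H¹` of the curve `y² = ∏ (x - b_i)` of genus `g` with real branch
points `b_0 < ⋯ < b_{2g}`: the forms `x^a dx / y`, `a < 2g`, are a basis of the de Rham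
cohomology, the suitably oriented cycles `γ_j` over the intervals `[b_j, b_{j+1}]`, `j < 2g`, are a
basis of the rational homology, and the entry in row `j` and column `a` is half the integral of
`x^a dx / y` over `γ_j` (on the interval, `y` is `± i^j` times the square root of `|∏ (x - b_i)|`) -/
noncomputable def comparison {g : ℕ} (b : Fin (2 * g + 1) → ℝ) :
    Matrix (Fin (2 * g)) (Fin (2 * g)) ℂ :=
  Matrix.of fun j a => Complex.I ^ (j : ℕ) * (period b a j : ℂ)

/-- the intersection matrix of the cycles `γ_j` -/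
def intersection (g : ℕ) : Matrix (Fin (2 * g)) (Fin (2 * g)) ℂ :=
  Matrix.of fun i j => if (j : ℕ) = i + 1 then 1 else if (i : ℕ) = j + 1 then -1 else 0

/-- the index set of a basis of `V = M_0 ⊕ ⨁ l, H¹(C_l)`, where `M_0` has rank `k` and the curve
`C_l` has genus `g_l` -/
abbrev Index (k : ℕ) {n : ℕ} (g : Fin n → ℕ) : Type := Fin k ⊕ ((l : Fin n) × Fin (2 * g l))

/-- block diagonal matrices on `V` -/
def diag {k n : ℕ} {g : Fin n → ℕ} (Θ : Matrix (Fin k) (Fin k) ℂ)
    (Φ : ∀ l, Matrix (Fin (2 * g l)) (Fin (2 * g l)) ℂ) :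
    Matrix (Index k g) (Index k g) ℂ :=
  Matrix.fromBlocks Θ 0 0 (Matrix.blockDiagonal' Φ)

/-- the index set of a basis of `⨁ i, V ^ ⊗ (a i)` -/
abbrev TensorIndex (I : Type) {r : ℕ} (a : Fin r → ℕ) : Type := (i : Fin r) × (Fin (a i) → I)

/-- the matrix of `⨁ i, c i • M ^ ⊗ (a i)` -/
def tensor {I : Type} {r : ℕ} (a : Fin r → ℕ) (c : Fin r → ℂ) (M : Matrix I I ℂ) :
    Matrix (TensorIndex I a) (TensorIndex I a) ℂ :=
  Matrix.blockDiagonal' fun i => Matrix.of fun F G => c i * ∏ t, M (F t) (G t)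

/-- the complex span of a rational subspace -/
def complexification {J : Type} (W : Submodule ℚ (J → ℚ)) : Submodule ℂ (J → ℂ) :=
  Submodule.span ℂ {v | ∃ w ∈ W, v = fun j => (w j : ℂ)}

/-- the rational subspaces `W` (of the de Rham side) and `W'` (of the Betti side) are a
sub-structure of the de Rham-Betti structure with comparison matrix `M` -/
def IsSubstructure {J : Type} [Fintype J] (M : Matrix J J ℂ) (W W' : Submodule ℚ (J → ℚ)) : Prop :=
  (complexification W).map M.mulVecLin = complexification W'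

/-- some sub-structure of some `⨁ i, c i • V ^ ⊗ (a i)`, where `V = M_0 ⊕ ⨁ l, H¹(C_l)`, `M_0` has
comparison matrix `Θ` and `C_l` is the curve `y² = h_l(x) (x - 1 / N_l)` with branch points `b l`,
is not stable under the product of the symplectic groups of the intersection forms -/
def HasExtraSubstructure {n k : ℕ} {g : Fin n → ℕ} (Θ : Matrix (Fin k) (Fin k) ℂ)
    (h : Fin n → ℚ[X]) (N : Fin n → ℕ) : Prop :=
  ∃ b : ∀ l, Fin (2 * g l + 1) → ℝ,
    (∀ l, StrictMono (b l) ∧
      (h l).map (algebraMap ℚ ℝ) * (X - C (1 / (N l : ℝ))) = ∏ i, (X - C (b l i))) ∧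
    ∃ (r : ℕ) (a : Fin r → ℕ) (c : Fin r → ℂ)
      (W W' : Submodule ℚ (TensorIndex (Index k g) a → ℚ)),
      (∀ i, c i ≠ 0) ∧
      IsSubstructure (tensor a c (diag Θ fun l => comparison (b l))) W W' ∧
      ∃ s : ∀ l, Matrix (Fin (2 * g l)) (Fin (2 * g l)) ℂ,
        (∀ l, s l * intersection (g l) * (s l).transpose = intersection (g l)) ∧
        (complexification W').map (tensor a 1 (diag 1 s)).mulVecLin ≠ complexification W'

theorem chn_eq (g : ℕ) : DRB.toC (DRB.chn (2 * g)) = intersection g := by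
  ext i j
  simp only [DRB.chn, intersection, Matrix.map_apply, Matrix.of_apply]
  split_ifs <;> simp

theorem cx_eq {J : Type} (W : Submodule ℚ (J → ℚ)) : DRB.cx W = complexification W := by
  rw [DRB.cx, complexification]
  congr 1
  ext v
  constructor
  · rintro ⟨w, hw, rfl⟩; exact ⟨w, hw, rfl⟩
  · rintro ⟨w, hw, rfl⟩; exact ⟨w, hw, rfl⟩

theorem result :
    (∀ (g : ℕ) (b : Fin (2 * g + 1) → ℝ) (p : ℚ[X]), StrictMono b →
      p.map (algebraMap ℚ ℝ) = ∏ i, (X - C (b i)) →
      ∃ Q : Matrix (Fin (2 * g)) (Fin (2 * g)) ℚ,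
        comparison b * Q.map (fun x : ℚ => (x : ℂ)) * (comparison b).transpose =
          (-(Real.pi * Complex.I)) • intersection g) ∧
    ∀ (n k : ℕ) (g : Fin n → ℕ) (h : Fin n → ℚ[X]), (∀ l, 1 ≤ g l) →
      (∀ l, (h l).coeff 0 ≠ 0) →
      (∀ l, ∃ e : Fin (2 * g l) → ℝ, StrictMono e ∧
        (h l).map (algebraMap ℚ ℝ) = ∏ i, (X - C (e i))) →
      ∃ K : ℕ, 1 ≤ K ∧ ∀ (T : ℕ) (Θ : Matrix (Fin k) (Fin k) ℂ), IsUnit Θ → 1 ≤ T →
        (({N : Fin n → ℕ | (∀ l, 1 ≤ N l ∧ N l ≤ T) ∧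
          HasExtraSubstructure (g := g) Θ h N}).ncard : ℝ) ≤
          K * (T : ℝ) ^ ((n : ℝ) - 1 / (K : ℝ)) := by
  refine ⟨fun g b p hb hp => ?_, fun n k g h hg h0 he => ?_⟩
  · refine ⟨DRB.qf (2 * g) p, ?_⟩
    have h1 := congrArg (Polynomial.map (algebraMap ℝ ℂ)) hp
    rw [Polynomial.map_map, Polynomial.map_prod] at h1
    have h2 : ∀ i, Polynomial.map (algebraMap ℝ ℂ) (X - C (b i)) = X - C (b i : ℂ) := by
      intro i; simp
    have h3 : ((algebraMap ℝ ℂ).comp (algebraMap ℚ ℝ)) = algebraMap ℚ ℂ :=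
      Subsingleton.elim _ _
    simp only [h2, h3] at h1
    have h4 := HEP.riemannRelations b hb
    rw [← h1] at h4
    rw [← chn_eq]
    exact DRB.APPL_.fwd p _ _ (fun j a => rfl) h4
  · obtain ⟨K, hK, hmain⟩ := DRB.appl DRB.a_CORE n k g h hg h0 he
    refine ⟨K, hK, fun T Θ hΘ hT => (Nat.cast_le.2 (Set.ncard_le_ncard ?_ ?_)).trans
      (hmain T Θ hΘ hT)⟩
    · rintro N ⟨hN, b, hb, r, a, c, W, W', hc, hsub, s, hs, hne⟩
      refine ⟨hN, b, hb, r, a, c, W, W', hc, ?_, s, fun l => ?_, ?_⟩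
      · rw [IsSubstructure, ← cx_eq, ← cx_eq] at hsub
        exact hsub
      · change s l * _ * _ = _
        rw [chn_eq]
        exact hs l
      · rw [← cx_eq] at hne
        convert hne using 3
        simp only [DRB.tens, tensor]
        congr 1
    · refine (Finset.finite_toSet (Fintype.piFinset fun _ : Fin n => Finset.Icc 1 T)).subset ?_
      rintro N ⟨hN, -⟩
      exact Finset.mem_coe.2 (Fintype.mem_piFinset.2 fun l => Finset.mem_Icc.2 (hN l))

end Pool.Agent.Variants.MP_5d33ca_ag.DeRhamBettiHyperelliptic
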