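import Pool.Agent.KStr.Bridge
import Pool.Agent.KStr.ETrans

/-!
# Kummer motives: the exceptional set for relations of bounded degree is a finite union of subgroups

The periods of the motive `H^1(G_m, {1, t})` are `2πi` and the logarithms of `t`.  Let `k` be a
field of algebraic numbers, `Γ` a finitely generated subgroup of `ℂ^×` and `D` a natural number.
The set of all `t` in `Γ` such that some logarithm of `t` satisfies together with `2πi` a nonzero
polynomial relation over `k` of total degree at most `D` is the union of finitely many subgroups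
`H` of `Γ`, and the `k`-vector space spanned by `1` and by all logarithms of the elements of `H` has
dimension at most `2 D` (at most `D + 1` if `k` is algebraically closed).  For `k = ℚ` the rank of
`H` is at most `2 D - 1`, and at most `2 D - 2` if `Γ` consists of algebraic numbers.
-/

set_option autoImplicit false

namespace Pool.Agent.Results.MP_5d33ca_ag.KummerStructure

open Pool.Agent.KStr

/-- The number `2πi`. -/
noncomputable def tpi : ℂ := 2 * (Real.pi : ℂ) * Complex.I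

/-- Some logarithm of `t` satisfies together with `2πi` a nonzero polynomial relation with
coefficients in `k` of total degree at most `D`. -/
def Exceptional (k : IntermediateField ℚ ℂ) (D : ℕ) (t : ℂˣ) : Prop :=
  ∃ ℓ : ℂ, Complex.exp ℓ = t ∧ ∃ P : MvPolynomial (Fin 2) k, P ≠ 0 ∧ P.totalDegree ≤ D ∧
    MvPolynomial.aeval ![tpi, ℓ] P = 0

/-- The `k`-vector space spanned by `1` and by all logarithms of all elements of `H`. -/
noncomputable def LogSpan (k : IntermediateField ℚ ℂ) (H : Subgroup ℂˣ) : Submodule k ℂ :=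
  Submodule.span k ({1} ∪ {ℓ : ℂ | ∃ t ∈ H, Complex.exp ℓ = t})

/-- The numbers `α_1, …, α_m` are multiplicatively independent. -/
def MultIndep {m : ℕ} (α : Fin m → ℂˣ) : Prop :=
  ∀ c : Fin m → ℤ, ∏ i, α i ^ c i = 1 → c = 0

lemma transcendental_tpi : Transcendental ℚ tpi := by
  intro h
  obtain ⟨P, hP, h0⟩ := (IsFractionRing.isAlgebraic_iff ℤ ℚ ℂ).2 h
  exact KAA.tPI P hP h0

lemma transcendental_tpi' (k : IntermediateField ℚ ℂ) [Algebra.IsAlgebraic ℚ k] :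
    Transcendental k tpi := fun h => transcendental_tpi (h.restrictScalars ℚ)

lemma exp_tpi (n : ℤ) : Complex.exp (n * tpi) = 1 := Complex.exp_int_mul_two_pi_mul_I n

/-- The elements of `Γ` with a logarithm in `W`. -/
def grp (Γ : Subgroup ℂˣ) (W : Submodule ℚ ℂ) : Subgroup ℂˣ where
  carrier := {t | t ∈ Γ ∧ ∃ ℓ ∈ W, Complex.exp ℓ = t}
  mul_mem' := by
    rintro a b ⟨ha, ℓ, hℓ, hea⟩ ⟨hb, ℓ', hℓ', heb⟩
    refine ⟨Γ.mul_mem ha hb, ℓ + ℓ', W.add_mem hℓ hℓ', ?_⟩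
    rw [Complex.exp_add, hea, heb, Units.val_mul]
  one_mem' := ⟨Γ.one_mem, 0, W.zero_mem, by rw [Complex.exp_zero, Units.val_one]⟩
  inv_mem' := by
    rintro a ⟨ha, ℓ, hℓ, hea⟩
    refine ⟨Γ.inv_mem ha, -ℓ, W.neg_mem hℓ, ?_⟩
    rw [Complex.exp_neg, hea, Units.val_inv_eq_inv_val]

lemma log_mem (Γ : Subgroup ℂˣ) (s : Set ℂˣ) (hs : Subgroup.closure s = Γ) (t : ℂˣ) (ht : t ∈ Γ)
    (ℓ : ℂ) (hℓ : Complex.exp ℓ = t) :
    ℓ ∈ Submodule.span ℚ ({tpi} ∪ (fun g : ℂˣ => Complex.log (g : ℂ)) '' s) := by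
  set Y := Submodule.span ℚ ({tpi} ∪ (fun g : ℂˣ => Complex.log (g : ℂ)) '' s) with hY
  have h1 : t ∈ grp ⊤ Y := by
    have h2 : Subgroup.closure s ≤ grp ⊤ Y := by
      rw [Subgroup.closure_le]
      intro g hg
      refine ⟨Subgroup.mem_top g, Complex.log (g : ℂ), Submodule.subset_span (Or.inr ⟨g, hg, rfl⟩),
        Complex.exp_log g.ne_zero⟩
    exact h2 (hs ▸ ht)
  obtain ⟨_, ℓ', hℓ', he⟩ := h1
  obtain ⟨n, hn⟩ := Complex.exp_eq_exp_iff_exists_int.1 (hℓ.trans he.symm)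
  rw [hn]
  refine Y.add_mem hℓ' ?_
  have h3 : (n : ℂ) * (2 * (Real.pi : ℂ) * Complex.I) = (n : ℚ) • tpi := by
    rw [Rat.smul_def]
    push_cast
    rfl
  rw [h3]
  exact Y.smul_mem _ (Submodule.subset_span (Or.inl rfl))

lemma exp_sum_zsmul {m : ℕ} (α : Fin m → ℂˣ) (ℓ : Fin m → ℂ)
    (hℓ : ∀ i, Complex.exp (ℓ i) = α i) (c : Fin m → ℤ) :
    Complex.exp (∑ i, (c i : ℂ) * ℓ i) = ((∏ i, α i ^ c i : ℂˣ) : ℂ) := by
  rw [Complex.exp_sum, Units.coe_prod]
  refine Finset.prod_congr rfl fun i _ => ?_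
  rw [Complex.exp_int_mul, hℓ, Units.val_zpow_eq_zpow_val]

lemma indep_one {m : ℕ} (α : Fin m → ℂˣ) (hα : MultIndep α) (ℓ : Fin m → ℂ)
    (hℓ : ∀ i, Complex.exp (ℓ i) = α i) :
    LinearIndependent ℚ (Fin.cons tpi ℓ : Fin (m + 1) → ℂ) := by
  rw [← LinearIndependent.iff_fractionRing ℤ ℚ, Fintype.linearIndependent_iff]
  intro c hc
  rw [Fin.sum_univ_succ] at hc
  simp only [Fin.cons_zero, Fin.cons_succ, zsmul_eq_mul] at hc
  have h1 : (∏ i, α i ^ c i.succ : ℂˣ) = 1 := by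
    apply Units.ext
    rw [← exp_sum_zsmul α ℓ hℓ (fun i => c i.succ), Units.val_one]
    have h2 := congrArg Complex.exp hc
    rw [Complex.exp_add, exp_tpi, one_mul, Complex.exp_zero] at h2
    exact h2
  have h3 := hα _ h1
  have h4 : ∀ i : Fin m, c i.succ = 0 := fun i => congrFun h3 i
  simp only [h4, Int.cast_zero, zero_mul, Finset.sum_const_zero, add_zero] at hc
  have h5 : tpi ≠ 0 := by
    intro h0
    exact transcendental_tpi (h0 ▸ isAlgebraic_zero)
  have h6 : c 0 = 0 := by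
    have := (mul_eq_zero.1 hc).resolve_right h5
    exact_mod_cast this
  intro i
  refine Fin.cases h6 h4 i

lemma indep_two {m : ℕ} (α : Fin m → ℂˣ) (hα : MultIndep α) (ℓ : Fin m → ℂ)
    (hℓ : ∀ i, Complex.exp (ℓ i) = α i) (halg : ∀ i, IsAlgebraic ℚ (α i : ℂ)) :
    LinearIndependent ℚ (Fin.cons 1 (Fin.cons tpi ℓ : Fin (m + 1) → ℂ) : Fin (m + 2) → ℂ) := by
  rw [← LinearIndependent.iff_fractionRing ℤ ℚ, Fintype.linearIndependent_iff]
  intro c hc
  have hc' := hc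
  rw [Fin.sum_univ_succ, Fin.sum_univ_succ] at hc
  simp only [Fin.cons_zero, Fin.cons_succ, zsmul_eq_mul, mul_one] at hc
  have h1 : Complex.exp 1 ^ c 0 * ((∏ i, α i ^ c i.succ.succ : ℂˣ) : ℂ) = 1 := by
    have h2 := congrArg Complex.exp hc
    rw [Complex.exp_add, Complex.exp_add, Complex.exp_zero, exp_tpi, one_mul,
      exp_sum_zsmul α ℓ hℓ (fun i => c i.succ.succ)] at h2
    have h7 : Complex.exp 1 ^ c 0 = Complex.exp (c 0) := by
      rw [← Complex.exp_int_mul, mul_one]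
    rw [h7]
    exact h2
  have hzpow : ∀ (z : ℂ) (n : ℤ), IsAlgebraic ℚ z → IsAlgebraic ℚ (z ^ n) := by
    intro z n hz
    rcases n with n | n
    · rw [Int.ofNat_eq_natCast, zpow_natCast]
      exact hz.pow n
    · rw [zpow_negSucc]
      exact (hz.pow _).inv
  have h3 : IsAlgebraic ℚ ((∏ i, α i ^ c i.succ.succ : ℂˣ) : ℂ) := by
    rw [Units.coe_prod]
    refine Finset.prod_induction _ (fun z => IsAlgebraic ℚ z) (fun a b ha hb => ha.mul hb)
      isAlgebraic_one fun i _ => ?_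
    rw [Units.val_zpow_eq_zpow_val]
    exact hzpow _ _ (halg i)
  have h4 : c 0 = 0 := by
    by_contra hne
    have h5 : IsAlgebraic ℚ (Complex.exp 1 ^ c 0) := by
      have h6 : Complex.exp 1 ^ c 0 = (((∏ i, α i ^ c i.succ.succ : ℂˣ) : ℂ))⁻¹ :=
        eq_inv_of_mul_eq_one_left h1
      rw [h6]
      exact h3.inv
    have h7 : IsAlgebraic ℚ (Complex.exp 1 ^ (c 0).natAbs) := by
      rcases Int.natAbs_eq (c 0) with h | h
      · rw [h, zpow_natCast] at h5
        exact h5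
      · rw [h, zpow_neg, zpow_natCast] at h5
        exact IsAlgebraic.inv_iff.1 h5
    exact transcendental_exp_one (h7.of_pow (Int.natAbs_pos.2 hne))
  have h8 : ∑ i : Fin (m + 1), c i.succ • (Fin.cons tpi ℓ : Fin (m + 1) → ℂ) i = 0 := by
    rw [Fin.sum_univ_succ] at hc'
    simp only [Fin.cons_zero, Fin.cons_succ, h4, zero_smul, zero_add] at hc'
    exact hc'
  have h9 := indep_one α hα ℓ hℓ
  rw [← LinearIndependent.iff_fractionRing ℤ ℚ, Fintype.linearIndependent_iff] at h9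
  intro i
  refine Fin.cases h4 (h9 _ h8) i

lemma indep_bot {m : ℕ} (w : Fin m → ℂ) (hw : LinearIndependent ℚ w) :
    LinearIndependent (⊥ : IntermediateField ℚ ℂ) w := by
  rw [Fintype.linearIndependent_iff] at hw ⊢
  intro c hc
  have h1 : ∀ i, ∃ q : ℚ, algebraMap ℚ ℂ q = (c i : ℂ) := fun i =>
    IntermediateField.mem_bot.1 (c i).2
  choose q hq using h1
  have h2 := hw q (by
    rw [← hc]
    refine Finset.sum_congr rfl fun i _ => ?_
    rw [Algebra.smul_def, hq]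
    rfl)
  intro i
  apply Subtype.ext
  rw [← hq, h2 i, map_zero]
  rfl

theorem result (k : IntermediateField ℚ ℂ) [Algebra.IsAlgebraic ℚ k] (Γ : Subgroup ℂˣ)
    (hΓ : Γ.FG) (D : ℕ) :
    ∃ T : Set (Subgroup ℂˣ), T.Finite ∧ (∀ H ∈ T, H ≤ Γ) ∧
      (∀ t ∈ Γ, Exceptional k D t ↔ ∃ H ∈ T, t ∈ H) ∧
      (∀ H ∈ T, Module.rank k (LogSpan k H) ≤ 2 * D) ∧
      (IsAlgClosed k → ∀ H ∈ T, Module.rank k (LogSpan k H) ≤ D + 1) ∧
      (k = ⊥ → ∀ H ∈ T, ∀ (m : ℕ) (α : Fin m → ℂˣ), (∀ i, α i ∈ H) → MultIndep α →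
        m + 1 ≤ 2 * D ∧ ((∀ t ∈ Γ, IsAlgebraic ℚ (t : ℂ)) → m + 2 ≤ 2 * D)) := by
  classical
  obtain ⟨s, hs⟩ := hΓ
  set Y : Submodule ℚ ℂ :=
    Submodule.span ℚ ({tpi} ∪ (fun g : ℂˣ => Complex.log (g : ℂ)) '' (s : Set ℂˣ)) with hY
  have hYfin : Module.Finite ℚ Y := by
    refine Module.Finite.iff_fg.2 (Submodule.fg_span ?_)
    exact (Set.finite_singleton _).union (s.finite_toSet.image _)
  obtain ⟨T, hT, hTY, hTrel, hTx, hTdim⟩ := structure_add (transcendental_tpi' k) D Y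
  have htY : tpi ∈ Y := Submodule.subset_span (Or.inl rfl)
  have hdim : ∀ W ∈ T, ∀ (M : ℕ) (w : Fin M → ℂ), (∀ i, w i ∈ LogSpan k (grp Γ W)) →
      LinearIndependent k w → M ≤ 2 * D ∧ (IsAlgClosed k → M ≤ D + 1) := by
    intro W hW M w hw hli
    refine hTdim W hW M w (fun i => ?_) hli
    have hle : LogSpan k (grp Γ W) ≤ Submodule.span k ({1, tpi} ∪ (W : Set ℂ)) := by
      unfold LogSpan
      rw [Submodule.span_le]
      rintro ℓ (rfl | ⟨t, ⟨_, ℓ', hℓ', he⟩, het⟩)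
      · exact Submodule.subset_span (Or.inl (Or.inl rfl))
      · obtain ⟨n, hn⟩ := Complex.exp_eq_exp_iff_exists_int.1 (het.trans he.symm)
        rw [hn]
        refine Submodule.add_mem _ (Submodule.subset_span (Or.inr hℓ')) ?_
        have h3 : (n : ℂ) * (2 * (Real.pi : ℂ) * Complex.I) = (n : k) • tpi := by
          rw [Algebra.smul_def]
          rfl
        rw [h3]
        exact Submodule.smul_mem _ _ (Submodule.subset_span (Or.inl (Or.inr rfl)))
    exact hle (hw i)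
  have hrank : ∀ W ∈ T, ∀ n : ℕ, (∀ (M : ℕ) (w : Fin M → ℂ),
      (∀ i, w i ∈ LogSpan k (grp Γ W)) → LinearIndependent k w → M ≤ n) →
      Module.rank k (LogSpan k (grp Γ W)) ≤ n := by
    intro W _ n h
    refine rank_le fun S hS => ?_
    refine h S.card (fun i => ((S.equivFin.symm i : LogSpan k (grp Γ W)) : ℂ))
      (fun i => (S.equivFin.symm i : LogSpan k (grp Γ W)).2) ?_
    exact (hS.comp _ S.equivFin.symm.injective).map' (Submodule.subtype _)
      (Submodule.ker_subtype _)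
  refine ⟨(fun W => grp Γ W) '' T, hT.image _, ?_, ?_, ?_, ?_, ?_⟩
  · rintro _ ⟨W, _, rfl⟩ t ht
    exact ht.1
  · intro t ht
    constructor
    · rintro ⟨ℓ, hℓ, hP⟩
      have h1 : ℓ ∈ Y := log_mem Γ s hs t ht ℓ hℓ
      obtain ⟨W, hW, hWℓ⟩ := (hTrel ℓ h1).1 ((rel_iff tpi ℓ D).2 hP)
      exact ⟨_, ⟨W, hW, rfl⟩, ht, ℓ, hWℓ, hℓ⟩
    · rintro ⟨_, ⟨W, hW, rfl⟩, _, ℓ, hWℓ, hℓ⟩
      exact ⟨ℓ, hℓ, (rel_iff tpi ℓ D).1 ((hTrel ℓ (hTY W hW hWℓ)).2 ⟨W, hW, hWℓ⟩)⟩
  · rintro _ ⟨W, hW, rfl⟩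
    have h1 := hrank W hW (2 * D) fun M w hw hli => (hdim W hW M w hw hli).1
    push_cast at h1
    exact h1
  · rintro hk _ ⟨W, hW, rfl⟩
    have h1 := hrank W hW (D + 1) fun M w hw hli => (hdim W hW M w hw hli).2 hk
    push_cast at h1
    exact h1
  · rintro hk _ ⟨W, hW, rfl⟩ m α hα hind
    choose hαΓ ℓ hℓW hℓ using hα
    subst hk
    have hmemℓ : ∀ i, ℓ i ∈ LogSpan ⊥ (grp Γ W) := fun i =>
      Submodule.subset_span (Or.inr ⟨α i, ⟨hαΓ i, ℓ i, hℓW i, hℓ i⟩, hℓ i⟩)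
    have hmemt : tpi ∈ LogSpan ⊥ (grp Γ W) :=
      Submodule.subset_span (Or.inr ⟨1, (grp Γ W).one_mem, by
        have h := exp_tpi 1
        rw [Int.cast_one, one_mul] at h
        rw [h, Units.val_one]⟩)
    have hmem1 : (1 : ℂ) ∈ LogSpan ⊥ (grp Γ W) := Submodule.subset_span (Or.inl rfl)
    refine ⟨?_, fun halg => ?_⟩
    · refine (hdim W hW (m + 1) (Fin.cons tpi ℓ) ?_ (indep_bot _ (indep_one α hind ℓ hℓ))).1
      intro i
      refine Fin.cases ?_ ?_ i
      · exact hmemt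
      · exact hmemℓ
    · refine (hdim W hW (m + 2) (Fin.cons 1 (Fin.cons tpi ℓ : Fin (m + 1) → ℂ)) ?_
        (indep_bot _ (indep_two α hind ℓ hℓ fun i => halg _ (hαΓ i)))).1
      intro i
      refine Fin.cases ?_ ?_ i
      · exact hmem1
      · intro j
        refine Fin.cases ?_ ?_ j
        · exact hmemt
        · exact hmemℓ

end Pool.Agent.Results.MP_5d33ca_ag.KummerStructure
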