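import Pool.Agent.PLG.RES
import Pool.Agent.PLG.ABS
import Pool.Agent.PLG.IN
import Pool.Agent.PLG.NONZ
import Pool.Agent.PLG.GAU
import Pool.Agent.PLG.ORD0
import Pool.Agent.PLG.ORD1
import Pool.Agent.PLG.DEG
import Pool.Agent.PLG.ZE
import Pool.Agent.PLG.COEF
import Pool.Agent.PLG.SIEG
import Pool.Agent.PLG.DEN
import Pool.Agent.PLG.AN
import Pool.Agent.PLG.H
import Pool.Agent.PLG.SHUF
import Pool.Agent.HYP.IND
import Pool.Agent.HYP.PFU
import Pool.Agent.HYP.SEPA
import Pool.Agent.HYP.EXPA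
import Pool.Agent.HYP.VALB
import Pool.Agent.HYP.VAL
import Pool.Agent.HYP.ELIM
import Pool.Agent.HYP.PROD
import Pool.Agent.HYP.MAIN
import Pool.Agent.HYP.MULTI

set_option autoImplicit false

/-!
# Multiple polylogarithms at `1 / t`: no exotic relation of bounded degree, for almost all `t`

Let `A` be a finite set of nonzero integers.  The periods of the mixed Tate motives attached to the
paths in `ℙ¹ ∖ ({0, ∞} ∪ A)` from the tangential base point at `∞` to the integer `t` are, up to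
powers of `2 π i`, the products `(log t) ^ m * L_w(1 / t)`, where `w` runs through the words in the
letters `{0} ∪ A` whose last letter is not `0`, and `L_w` is the iterated integral
(hyperlogarithm, multiple polylogarithm) of the forms `dz / z` (letter `0`) and `a dz / (1 - a z)`
(letter `a`).  For example `L_(0 ... 0 a)(1 / t) = Li_j(a / t)` for the word with `j` letters.

For every finite family `θ` of complex numbers (for instance `2 π i` and multiple zeta values, or
all periods of any fixed motive) and for almost all `t` (all but `O(T^(1 - 1/K))` integers `t ≤ T`;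
more generally for almost all tuples), these products of weight at most `n` satisfy no nontrivial
linear relation over `ℤ[θ]` with coefficients of bounded degree in `θ` and of arbitrary height,
simultaneously for all sets `A` of at most `q` integers of absolute value at most `T^(1/K)`.
By the shuffle product all polynomial relations of bounded degree between them are therefore
consequences of the shuffle relations.
-/

namespace Pool.Agent.Variants.MP_5d33ca_ag.MultiplePolylogarithms

open Finset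

/-- The power series in `z` of the hyperlogarithm `L_w` of a word `w` with integer letters:
`L_[] = 1`, `L_(0 w)' = L_w / z` and `L_(a w)' = a L_w / (1 - a z)` for `a ≠ 0`, with constant term
`0`; so the coefficient of `z ^ s` in `L_(0 w)` is `1 / s` times that of `L_w`, and in `L_(a w)` it
is `1 / s` times that of `(a z + a² z² + ...) * L_w`. -/
noncomputable def hyperlog : List ℤ → PowerSeries ℚ
  | [] => 1
  | a :: w => PowerSeries.mk fun s =>
      (if a = 0 then PowerSeries.coeff s (hyperlog w)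
        else ∑ r ∈ range s, (a : ℚ) ^ (s - r) * PowerSeries.coeff r (hyperlog w)) / s

/-- The value `L_w(1 / t)`. -/
noncomputable def value (w : List ℤ) (t : ℕ) : ℝ :=
  ∑' s, ((PowerSeries.coeff s (hyperlog w) : ℚ) : ℝ) * (1 / (t : ℝ)) ^ s

/-- The last letter of `w` is not `0` (the empty word is regular). -/
def Regular (w : List ℤ) : Prop := w.getLast? ≠ some 0

/-- The pairs `(w, m)`, `w` a regular word in the letters `{0} ∪ A`, of weight
`length w + m ≤ n`. -/
def Index (n : ℕ) (A : Finset ℤ) : Set (List ℤ × ℕ) :=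
  {p | p.1.length + p.2 ≤ n ∧ (∀ x ∈ p.1, x = 0 ∨ x ∈ A) ∧ Regular p.1}

/-- For points `t_1, ..., t_r` and sets of letters `A_1, ..., A_r`: there is a nontrivial linear
relation between the products `∏_l (log t_l) ^ (m_l) * L_(w_l)(1 / t_l)`,
`(w_l, m_l) ∈ Index n A_l`, whose coefficients are the values at `θ` of integer polynomials of
total degree at most `D` (with coefficients of any size), not all of them zero at `θ`. -/
def HasRelation {k r : ℕ} (n D : ℕ) (θ : Fin k → ℂ) (A : Fin r → Finset ℤ) (t : Fin r → ℕ) :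
    Prop :=
  ∃ c : (Fin r → List ℤ × ℕ) →₀ MvPolynomial (Fin k) ℤ,
    (∀ p ∈ c.support, (∀ l, p l ∈ Index n (A l)) ∧ (c p).totalDegree ≤ D) ∧
    (∃ p, MvPolynomial.aeval θ (c p) ≠ 0) ∧
    c.sum (fun p x => MvPolynomial.aeval θ x *
      ∏ l, ((value (p l).1 (t l) : ℂ) * (Real.log (t l) : ℂ) ^ (p l).2)) = 0

theorem hyperlog_eq : ∀ w, hyperlog w = HYP.hl w
  | [] => rfl
  | a :: w => by
      rw [hyperlog, HYP.hl, hyperlog_eq w]

theorem value_eq (w : List ℤ) (t : ℕ) : value w t = HYP.hv w t := by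
  rw [value, HYP.hv, hyperlog_eq w]

theorem hasRelation_iff {k r : ℕ} (n D : ℕ) (θ : Fin k → ℂ) (A : Fin r → Finset ℤ)
    (t : Fin r → ℕ) : HasRelation n D θ A t ↔ HYP.BadM n D θ A t := by
  unfold HasRelation HYP.BadM
  simp only [value_eq]
  exact Iff.rfl

theorem final (h : HYP.T_MULTI) (n q D k r : ℕ) : ∃ K : ℕ, 1 ≤ K ∧
    ∀ (θ : Fin k → ℂ) (T : ℕ), 1 ≤ T →
      ({t : Fin r → ℕ | (∀ l, 1 ≤ t l ∧ t l ≤ T) ∧ ∃ A : Fin r → Finset ℤ,
        (∀ l, (A l).card ≤ q ∧ ∀ a ∈ A l, a ≠ 0 ∧ |a| ^ K ≤ (T : ℤ)) ∧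
        HasRelation n D θ A t}.ncard : ℝ) ≤ K * (T : ℝ) ^ ((r : ℝ) - 1 / (K : ℝ)) := by
  obtain ⟨K, hK, h1⟩ := h n q D r k
  refine ⟨K, hK, fun θ T hT => ?_⟩
  have h2 := h1 θ T hT
  simp only [hasRelation_iff]
  exact h2

/-- For all `n, q, D, k, r` there is `K ≥ 1` such that for all `θ ∈ ℂ^k` and all `T ≥ 1`, all but
at most `K · T^(r - 1/K)` tuples `t ∈ {1, ..., T}^r` have the following property: for all sets
`A_1, ..., A_r` of at most `q` nonzero integers `a` with `|a|^K ≤ T`, the products over `l` of the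
numbers `(log t_l)^m · L_w(1 / t_l)`, `w` a regular word in the letters `{0} ∪ A_l`, `|w| + m ≤ n`,
satisfy no nontrivial linear relation over `ℤ[θ]` with coefficients of degree at most `D`. -/
theorem result (n q D k r : ℕ) : ∃ K : ℕ, 1 ≤ K ∧
    ∀ (θ : Fin k → ℂ) (T : ℕ), 1 ≤ T →
      ({t : Fin r → ℕ | (∀ l, 1 ≤ t l ∧ t l ≤ T) ∧ ∃ A : Fin r → Finset ℤ,
        (∀ l, (A l).card ≤ q ∧ ∀ a ∈ A l, a ≠ 0 ∧ |a| ^ K ≤ (T : ℤ)) ∧
        HasRelation n D θ A t}.ncard : ℝ) ≤ K * (T : ℝ) ^ ((r : ℝ) - 1 / (K : ℝ)) := by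
  have hABS := PLG.p_ABS PLG.p_RES
  have hZE := PLG.p_ZE (PLG.p_NONZ hABS) (PLG.p_ORD0 PLG.p_IN) (PLG.p_ORD1 PLG.p_GAU) PLG.p_DEG
  have hSIEG := PLG.p_SIEG PLG.p_COEF PLG.p_LCM
  have hAN := PLG.p_AN PLG.p_GAU PLG.p_IN PLG.p_COEF
  have hH := PLG.p_H hZE PLG.p_LCM hSIEG PLG.p_DEN hAN
  have hPROD := HYP.p_PROD hH PLG.p_COEF (HYP.p_IND PLG.p_RES) (HYP.p_PFU PLG.p_IN) HYP.p_SEPA
    (HYP.p_EXPA (PLG.p_SHUF PLG.p_IN)) (HYP.p_VAL HYP.p_VALB)
  exact final (HYP.p_MULTI (HYP.p_MAIN hPROD HYP.p_ELIM)) n q D k r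

end Pool.Agent.Variants.MP_5d33ca_ag.MultiplePolylogarithms
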